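import Pool.Agent.Helper60.TG.Goals

/-!
Project TG (MP_a41896_nt), packet MAXT (helper80): a maximal algebraically independent subfamily.
-/

set_option autoImplicit false

namespace Pool.Agent.Helper80.TG.MAXT

theorem t : Pool.Agent.Helper60.TG.MAXT := by
  intro K κ L _ _ _ _ _ _ _ τ _ _ x C
  classical
  have h0 : AlgebraicIndepOn C x ((∅ : Finset τ) : Set τ) := by
    haveI : IsEmpty ↥((∅ : Finset τ) : Set τ) := by
      rw [Finset.coe_empty]; infer_instance
    exact algebraicIndependent_empty_type
  obtain ⟨T, hT⟩ := (Set.toFinite {T : Finset τ | AlgebraicIndepOn C x (T : Set τ)}).exists_maximal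
    ⟨∅, h0⟩
  have hT1 : AlgebraicIndepOn C x (T : Set τ) := hT.1
  refine ⟨T, hT1, ?_⟩
  intro a
  set F := IntermediateField.adjoin K ((C : Set L) ∪ x '' (T : Set τ)) with hF
  by_cases ha : a ∈ T
  · have hm : x a ∈ F := IntermediateField.subset_adjoin K _ (Or.inr ⟨a, by simpa using ha, rfl⟩)
    exact isAlgebraic_algebraMap (⟨x a, hm⟩ : F)
  · have hn : ¬ AlgebraicIndepOn C x (insert a (T : Set τ)) := by
      intro h
      have h' : AlgebraicIndepOn C x ((insert a T : Finset τ) : Set τ) := by
        rwa [Finset.coe_insert]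
      have hle := hT.2 h' (Finset.subset_insert a T)
      exact ha (hle (Finset.mem_insert_self a T))
    have ha' : a ∉ (T : Set τ) := by simpa using ha
    rw [AlgebraicIndepOn.insert_iff ha'] at hn
    have halg : IsAlgebraic (Algebra.adjoin C (x '' (T : Set τ))) (x a) := by
      by_contra hc
      exact hn ⟨hT1, hc⟩
    have hsub : ∀ z ∈ Algebra.adjoin C (x '' (T : Set τ)), z ∈ F := by
      intro z hz
      induction hz using Algebra.adjoin_induction with
      | mem z hz => exact IntermediateField.subset_adjoin K _ (Or.inr hz)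
      | algebraMap r => exact IntermediateField.subset_adjoin K _ (Or.inl r.2)
      | add u v _ _ hu hv => exact F.add_mem hu hv
      | mul u v _ _ hu hv => exact F.mul_mem hu hv
    obtain ⟨p, hp0, hp⟩ := halg
    let ι : Algebra.adjoin C (x '' (T : Set τ)) →+* F :=
      { toFun := fun z => ⟨z.1, hsub z.1 z.2⟩
        map_one' := rfl
        map_mul' := fun _ _ => rfl
        map_zero' := rfl
        map_add' := fun _ _ => rfl }
    have hι : Function.Injective ι := by
      intro u v huv
      have : (ι u : L) = ι v := by rw [huv]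
      exact Subtype.ext this
    refine ⟨p.map ι, ?_, ?_⟩
    · rwa [Ne, Polynomial.map_eq_zero_iff hι]
    · rw [Polynomial.aeval_def, Polynomial.eval₂_map]
      rw [Polynomial.aeval_def] at hp
      exact hp

end Pool.Agent.Helper80.TG.MAXT
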