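import Pool.Agent.Helper60.TG.GoalsR
import Pool.Agent.Helper85.T3.DADD
import Pool.Agent.Helper90.T3.SUBF

/-!
Project TG (MP_a41896_nt), packet ZCMBR (helper80): `zd D` and the coordinates of a combination.
-/

set_option autoImplicit false

namespace Pool.Agent.Helper80.TG.ZCMBR

open WeierstrassCurve
open Pool.Agent.Helper29.BL Pool.Agent.Helper92.Ru Pool.Agent.Helper42.SG
open Pool.Agent.Helper60.T3 (WL IP zd)
open Pool.Agent.Helper42.TG (cmbR)

theorem zd_cast {K L : Type} [Field K] [Field L] [Algebra K L] {ι τ : Type}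
    {E : ι → Affine K} {cl : τ → ι} (w : ∀ j, (WL L (E (cl j))).Point) (D : L → L) (j : τ) (c : ι)
    (h : cl j = c) : zd D (h ▸ w j : (WL L (E c)).Point) = zd D (w j) := by
  subst h
  rfl

theorem ip_cast {K L : Type} [Field K] [Field L] [Algebra K L] {ι τ : Type}
    {E : ι → Affine K} {cl : τ → ι} (w : ∀ j, (WL L (E (cl j))).Point) (F : Set L) (j : τ) (c : ι)
    (h : cl j = c) : IP F (w j) → IP F (h ▸ w j : (WL L (E c)).Point) := by
  subst h
  exact id

theorem t : Pool.Agent.Helper60.TG.ZCMBR := by
  intro K L _ _ _ _ _ ι _ E hE R _ ac d had hac τ _ cl w c n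
  haveI := hE c
  refine ⟨?_, ?_⟩
  · intro D
    have hadd : ∀ P Q : (WL L (E c)).Point, zd D (P + Q) = zd D P + zd D Q :=
      Pool.Agent.Helper85.T3.DADD.t K L (E c) D
    have hzero : zd D (0 : (WL L (E c)).Point) = 0 := by
      have h := hadd 0 0
      rw [add_zero] at h
      have h2 : zd D (0 : (WL L (E c)).Point) + 0 = zd D (0 : (WL L (E c)).Point) +
          zd D (0 : (WL L (E c)).Point) := by rw [add_zero]; exact h
      exact (add_left_cancel h2).symm
    let Z : (WL L (E c)).Point →+ L :=
      { toFun := fun P => zd D P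
        map_zero' := hzero
        map_add' := hadd }
    have hZ : ∀ P, Z P = zd D P := fun _ => rfl
    unfold cmbR
    rw [← hZ, map_sum]
    refine Finset.sum_congr rfl fun j _ => ?_
    by_cases h : cl j = c
    · rw [dif_pos h, if_pos h, hZ, had, zd_cast]
    · rw [dif_neg h, if_neg h, map_zero]
  · intro F hF
    unfold cmbR
    have key : ∀ s : Finset τ, IP (F : Set L) (∑ j ∈ s, if h : cl j = c then
        ac c (n j) (h ▸ w j : (WL L (E c)).Point) else 0) := by
      classical
      intro s
      induction s using Finset.induction_on with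
      | empty => left; simp
      | insert j s hj ih =>
        rw [Finset.sum_insert hj]
        refine (Pool.Agent.Helper90.T3.SUBF.t K L (E c) F _ _ ?_ ih).1
        by_cases h : cl j = c
        · rw [dif_pos h]
          exact hac c (n j) F _ (ip_cast w _ j c h (hF j h))
        · rw [dif_neg h]; left; rfl
    exact key Finset.univ

end Pool.Agent.Helper80.TG.ZCMBR
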